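import Pool.Agent.N546.ZT.FD
import Pool.Agent.N546.ZT.Orb
import Pool.Agent.Results.MP_ab3ecb_nt.TypesOfOrthogonalPoints

/-!
# Types of orthogonal adelic points on twists along random orbits of thin groups

Let `b y ^ 2 = ∏ k, G k (z, w)` be a hyperelliptic curve `D` over `ℚ`, where the `G k` are the
homogenisations of polynomials `g k` with integral coefficients, of even degrees, pairwise coprime.
Let `h` be a polynomial with integral coefficients, coprime to the `g k`, and `H` its homogenisation.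
For a nonzero integer `a` and `m ≥ 2`, `m ∣ deg h`, consider the curve

  `C a : b y ^ 2 = ∏ k, G k (z, w)`, `a x ^ m = H (z, w)`,

a cyclic covering of degree `m` of `D`; for different `a` these coverings are twists of each other. The
classes of the quaternion algebras `(G k, e)`, `e` a nonzero integer, belong to the Brauer group of `C a`.
The type of a point over a field is the family of the values of the `G k` modulo squares. The starting
file `TypesOfOrthogonalPoints` shows for almost all squarefree `a` that the adelic points of `C a`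
orthogonal to the classes `(G k, e)` are of the type of a rational point over an integral zero of `h` at
all places, if this holds for the persistent classes (`OnlyZeros`), for example if the zeros of `h` are
one or two integers.

Let `a = u ∏ λ_j(c) ^ e_j` be a product of powers of linear forms in a vector `c ∈ ℤ^r`, `r ≥ 2`, where
`u ≠ 0`, one of the exponents is `1`, its form is not zero and not proportional to the other forms
(with positive exponents). For example `a` can be a coordinate of `c` or the product of all coordinates.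

**Theorem.** (1) For all data `b`, `g`, `h` and all such products the set of the vectors `c` for which
this is not true for `C a` is pronull: its closure in the product of the `ℤ_p^r` over the `p` prime to `M`
has Haar measure zero for all `M`.

(2) Let `s_0, …, s_m` be matrices in `SL_r(ℤ)` which generate `SL_r(ℤ/q)` for all `q` prime to some `q₀`;
they can generate a thin group, that is, a subgroup of infinite index. Let `v ≠ 0`. For almost every sequence `w` of indices this
is true for ALL data `b`, `g`, `h` and ALL products for the twists `C a` with the parameter vectors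
`c = s_(w(n-1)) ⋯ s_(w(0)) v`, for all `n` outside a set of density zero.

Proof. The local analysis of the starting file works at the exact prime divisors of an arbitrary integer
`a`: the property needs one exact prime divisor in each of finitely many sets of primes of positive
density (theorem of Chebotarev), which depend on `g`, `h`, `b` only. The density of the residue classes
modulo `p ^ 2` with `λ_l(c)` divisible by `p` and not by `p ^ 2` and the other forms not divisible by `p`
is at least `1 / (2 p)`, so that almost all vectors are in one of these classes for a prime in each of the sets. The engine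
`Pool.Agent.N24.RW` of helper24 shows that random orbits of thin groups avoid pronull sets.
-/

set_option autoImplicit false

namespace Pool.Agent.Results.MP_ab3ecb_nt.RandomOrbitsOfThinGroups

open Polynomial Pool.Agent.R925.FD MeasureTheory Filter Topology
open Pool.Agent.N24.RW (Walk orb words)
open Pool.Agent.Results.MP_ab3ecb_nt.TypesOfOrthogonalPoints (Admissible SameType OnlyZeros hom_int
  isSquare_cast)

/-- the product `u ∏ λ_j(c) ^ e_j` of powers of linear forms -/
def twist {ι : Type} [Fintype ι] {k : ℕ} (L : Fin k → ι → ℤ) (e : Fin k → ℕ) (u : ℤ) (c : ι → ℤ) : ℤ :=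
  u * ∏ j, (∑ i, L j i * c i) ^ e j

/-- one of the linear forms has the exponent one, is not zero and not proportional to another one
with a positive exponent -/
def Simple {ι : Type} {k : ℕ} (L : Fin k → ι → ℤ) (e : Fin k → ℕ) : Prop :=
  ∃ l, e l = 1 ∧ (∃ i, L l i ≠ 0) ∧
    ∀ j, j ≠ l → e j ≠ 0 → ∃ i i', L l i * L j i' ≠ L l i' * L j i

/-- The closure of `B` in the product of the `ℤ_p^ι` over the `p` that do not divide `M` has Haar
measure zero, for all `M`. -/
def ProNull {ι : Type} [Fintype ι] (B : Set (ι → ℤ)) : Prop :=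
  ∀ M : ℕ, 0 < M → ∀ ε : ℝ, 0 < ε → ∃ q : ℕ, 0 < q ∧ q.Coprime M ∧
    ((((fun (c : ι → ℤ) (i : ι) => (c i : ZMod q)) '' B).ncard : ℕ) : ℝ) ≤
      ε * (q : ℝ) ^ Fintype.card ι

/-- On the curves `C a` every orthogonal adelic point is of the type of a rational point with `x = 0`
over an integral zero of `h`. -/
def OnlyRational {K : Type} [Fintype K] [DecidableEq K] (b : ℤ) (g : K → ℤ[X]) (h : ℤ[X]) (a : ℤ) :
    Prop :=
  ∀ m, 2 ≤ m → m ∣ h.natDegree → ∀ P : AdelicPoint m b a g h, Orthogonal P →
    ∃ Q : Point m b a g h ℚ, Q.x = 0 ∧ Q.w = 1 ∧ (∃ α : ℤ, Q.z = α) ∧ SameType P Q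

/-- For all products of powers of linear forms the property `P a` holds for all the members `c` of the
orbit, with the exception of a set of times of density zero. -/
def AlongOrbit {ι : Type} [Fintype ι] [DecidableEq ι] (W : Walk ι) (v : ι → ℤ)
    (w : ℕ → Fin (W.m + 1)) (P : ℤ → Prop) : Prop :=
  ∀ (k : ℕ) (L : Fin k → ι → ℤ) (e : Fin k → ℕ) (u : ℤ), u ≠ 0 → Simple L e →
    Tendsto (fun N : ℕ =>
      (({n : ℕ | n < N ∧ ¬ P (twist L e u (orb W v w n))}.ncard : ℕ) : ℝ) / (N : ℝ)) atTop (𝓝 0)

lemma tendsto_mono {S S' : ℕ → Prop} (hS : ∀ n, S' n → S n)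
    (h : Tendsto (fun N : ℕ => (({n : ℕ | n < N ∧ S n}.ncard : ℕ) : ℝ) / (N : ℝ)) atTop (𝓝 0)) :
    Tendsto (fun N : ℕ => (({n : ℕ | n < N ∧ S' n}.ncard : ℕ) : ℝ) / (N : ℝ)) atTop (𝓝 0) := by
  refine squeeze_zero (fun N => by positivity) (fun N => ?_) h
  have h1 : {n : ℕ | n < N ∧ S' n}.ncard ≤ {n : ℕ | n < N ∧ S n}.ncard :=
    Set.ncard_le_ncard (fun n hn => ⟨hn.1, hS n hn.2⟩)
      ((Set.finite_Iio N).subset fun n hn => hn.1)
  have h2 : (({n : ℕ | n < N ∧ S' n}.ncard : ℕ) : ℝ) ≤ (({n : ℕ | n < N ∧ S n}.ncard : ℕ) : ℝ) := by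
    exact_mod_cast h1
  gcongr

lemma AlongOrbit.mono {ι : Type} [Fintype ι] [DecidableEq ι] {W : Walk ι} {v : ι → ℤ}
    {w : ℕ → Fin (W.m + 1)} {P P' : ℤ → Prop} (h : AlongOrbit W v w P) (h' : ∀ a, P a → P' a) :
    AlongOrbit W v w P' := fun k L e u hu hL =>
  tendsto_mono (fun _ hn hP => hn (h' _ hP)) (h k L e u hu hL)

lemma ProNull.mono {ι : Type} [Fintype ι] {A B : Set (ι → ℤ)} (h : ProNull B) (hAB : A ⊆ B) :
    ProNull A :=
  (Pool.Agent.N24.RW.clo ι).1 A B hAB h

section
variable {K : Type} [Fintype K] [DecidableEq K] {b : ℤ} {g : K → ℤ[X]} {h : ℤ[X]} {a : ℤ}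

lemma value_ne (hA : Admissible b g h) (k : K) (α : ℤ) (hα : h.eval α = 0) : (g k).eval α ≠ 0 := by
  intro hgα
  refine coprime_field hA.h_ne (hA.coprime_h k) (F := ℚ) (z := (α : ℚ)) (w := 1)
    (Or.inr one_ne_zero) ?_ ?_
  · rw [hom_int, hα, Int.cast_zero]
  · rw [hom_int, hgα, Int.cast_zero]

lemma rational_of (hA : Admissible b g h) (hOZ : OnlyZeros b g h)
    (hp : Pool.Agent.N546.ZT.BMProp b g h a) : OnlyRational b g h a := by
  intro m hm hmh P hP
  obtain ⟨n, hn1, hn2, hper, hn3, hn4⟩ := hp m hm hmh P hP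
  obtain ⟨α, hα, hsq⟩ := hOZ _ hn2 hper
  -- the rational point
  have hgne : ∀ k, hom (g k) (α : ℚ) 1 ≠ 0 := fun k => by
    rw [hom_int]
    exact Int.cast_ne_zero.2 (value_ne hA k α hα)
  have hyex : ∃ y : ℚ, (b : ℚ) * y ^ 2 = ∏ k, hom (g k) (α : ℚ) 1 := by
    obtain ⟨t, ht⟩ := hn2.2
    choose r hr using hsq
    have h3 : (∏ k, (n k : ℚ)) * ∏ k, hom (g k) (α : ℚ) 1 = (∏ k, r k) * ∏ k, r k := by
      rw [← Finset.prod_mul_distrib, ← Finset.prod_mul_distrib]
      refine Finset.prod_congr rfl fun k _ => ?_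
      rw [hom_int]
      exact hr k
    have hb : (b : ℚ) ≠ 0 := Int.cast_ne_zero.2 hA.b_ne
    have hn0 : ∏ k, (n k : ℚ) ≠ 0 := Finset.prod_ne_zero_iff.2 fun k _ => hn2.1 k
    have ht0 : t ≠ 0 := by
      rintro rfl
      rw [zero_pow two_ne_zero, mul_zero] at ht
      exact hn0 ht
    rw [ht] at h3
    refine ⟨(∏ k, r k) / (b * t), ?_⟩
    rw [div_pow, sq (∏ k, r k), ← h3]
    field_simp
  obtain ⟨y, hy⟩ := hyex
  refine ⟨⟨α, 1, 0, y, Or.inr one_ne_zero, hy, ?_⟩, rfl, rfl, ⟨α, rfl⟩, ?_⟩
  · rw [hom_int, hα, zero_pow (by omega : m ≠ 0), mul_zero, Int.cast_zero]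
  · have hval : ∀ k, value (⟨α, 1, 0, y, Or.inr one_ne_zero, hy, by
        rw [hom_int, hα, zero_pow (by omega : m ≠ 0), mul_zero, Int.cast_zero]⟩ :
        Point m b a g h ℚ) k = ((g k).eval α : ℤ) := by
      intro k
      have h4 := cval_of_ne (b := b) (hgne k)
      rw [hom_int] at h4
      exact h4
    refine ⟨fun k => ?_, fun k p => ?_⟩
    · rw [hval]
      exact isSquare_cast (hn1 k).ne_zero (hn3 k) (hsq k)
    · rw [hval]
      exact isSquare_cast (hn1 k).ne_zero (hn4 k p) (hsq k)

end

theorem result :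
    (∀ (ι : Type) [Fintype ι] (k : ℕ) (L : Fin k → ι → ℤ) (e : Fin k → ℕ) (u : ℤ), u ≠ 0 →
      Simple L e → ∀ (K : Type) [Fintype K] [DecidableEq K] (b : ℤ) (g : K → ℤ[X]) (h : ℤ[X]),
      Admissible b g h → OnlyZeros b g h →
        ProNull {c : ι → ℤ | ¬ OnlyRational b g h (twist L e u c)}) ∧
    (∀ (ι : Type) [Fintype ι] [DecidableEq ι], 2 ≤ Fintype.card ι → ∀ (W : Walk ι) (v : ι → ℤ),
      v ≠ 0 → ∀ᵐ w ∂(words W.m), ∀ (r : ℕ) (b : ℤ) (g : Fin r → ℤ[X]) (h : ℤ[X]),
        Admissible b g h → OnlyZeros b g h → AlongOrbit W v w (OnlyRational b g h)) ∧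
    ∀ (K : Type) [Fintype K] [DecidableEq K] (b : ℤ) (g : K → ℤ[X]) (h : ℤ[X]), Admissible b g h →
      ∀ α₁ α₂ : ℤ, (∀ β : AlgebraicClosure ℚ, aeval β h = 0 ↔ β = α₁ ∨ β = α₂) →
        OnlyZeros b g h := by
  refine ⟨fun ι _ k L e u hu hL K _ _ b g h hA hOZ => ?_, fun ι _ _ hι W v hv => ?_,
    fun K _ _ b g h hA => (TypesOfOrthogonalPoints.result K b g h hA).2.1⟩
  · have h1 : ProNull {c : ι → ℤ | ¬ Pool.Agent.N546.ZT.BMProp b g h (twist L e u c)} :=
      Pool.Agent.N546.ZT.pn_crit (Pool.Agent.N546.ZT.bm_crit hA.b_ne hA.g_ne hA.h_ne hA.deg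
        hA.coprime hA.coprime_h) L e u hu hL
    exact h1.mono fun c hc hP => hc (rational_of hA hOZ hP)
  · have h1 := Pool.Agent.N546.ZT.orb_adm hι W v hv Pool.Agent.N546.ZT.countable_data
      (fun d => Admissible d.2.2.1 d.2.2.2.1 d.2.2.2.2)
      (fun d x => Pool.Agent.N546.ZT.BMProp d.2.2.1 d.2.2.2.1 d.2.2.2.2 x)
      (fun d hA => Pool.Agent.N546.ZT.bm_crit hA.b_ne hA.g_ne hA.h_ne hA.deg hA.coprime
        hA.coprime_h)
    filter_upwards [h1] with w hw r b g h hA hOZ
    have h4 : AlongOrbit W v w (Pool.Agent.N546.ZT.BMProp b g h) := hw ⟨r, 0, b, g, h⟩ hA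
    exact h4.mono fun _ => rational_of hA hOZ

end Pool.Agent.Results.MP_ab3ecb_nt.RandomOrbitsOfThinGroups
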